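import Pool.Agent.K6.H63.RT.Split

/-!
Bounds of every order, the pointwise bound by averages, the covering argument and the passage to
the limit.
-/

set_option autoImplicit false

namespace Pool.Agent.K6.H63.RT

open Finset Filter Topology Pool.Agent.R248.Ritt

section order

variable {μ : ℤ → ℝ} (h0 : ∀ k, 0 ≤ μ k) (h1 : HasSum μ 1) (hs : ∀ k, μ (-k) = μ k)
  (ha : ∀ n : ℕ, μ (n + 1) ≤ μ n)

lemma Sym_mR (R : ℕ) : Sym (mR μ R) := Sym.sum _ _ fun r _ => (Sym_U r).smul _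

include ha in
lemma NU_mR_le (R : ℕ) : NU (mR μ R) ≤ sR μ R := by
  unfold mR sR
  refine (NU_sum_le _ _).trans (sum_le_sum fun r _ => ?_)
  rw [NU_smul, abs_of_nonneg (pw_nonneg ha r)]
  exact mul_le_of_le_one_right (pw_nonneg ha r) (NU_U_le r)

include h0 h1 hs ha in
lemma NU_mR_pow_le (R n : ℕ) : NU (mR μ R ^ n) ≤ 1 := by
  refine (NU_pow_le (Sym_mR R) n).trans ?_
  exact pow_le_one₀ (NU_nonneg _) ((NU_mR_le ha R).trans (sR_le_one h0 h1 hs R))

/-- The finitely supported approximation of `(δ₀ - μ)^m * μ^n`. -/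
noncomputable def ker (μ : ℤ → ℝ) (m n R : ℕ) : A := mR μ R ^ n * (sR μ R • (1 : A) - mR μ R) ^ m

lemma Sym_diff (R : ℕ) : Sym (sR μ R • (1 : A) - mR μ R) := (Sym_one.smul _).sub (Sym_mR R)

lemma Sym_ker (m n R : ℕ) : Sym (ker μ m n R) := ((Sym_mR R).pow n).mul ((Sym_diff R).pow m)

include h0 h1 hs ha in
/-- The bound of order `m`. -/
lemma NU_ker_le (m n R : ℕ) : (n : ℝ) ^ m * NU (ker μ m n R) ≤ (1266 * m) ^ m := by
  rcases Nat.eq_zero_or_pos m with hm | hm
  · subst hm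
    unfold ker
    rw [pow_zero, pow_zero, pow_zero, mul_one, one_mul]
    exact NU_mR_pow_le h0 h1 hs ha R n
  · set q := n / m with hq
    have hn : n = m * q + n % m := (Nat.div_add_mod n m).symm
    have e : ker μ m n R = ((sR μ R • (1 : A) - mR μ R) * mR μ R ^ q) ^ m * mR μ R ^ (n % m) := by
      unfold ker
      rw [mul_pow, ← pow_mul, mul_comm q m, mul_assoc, ← pow_add, ← hn, mul_comm]
    have hd : NU ((sR μ R • (1 : A) - mR μ R) * mR μ R ^ q) ≤ 1266 / (q + 1) := by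
      have h6 := mixture_NU (pw μ) (pw_nonneg ha) R q
      have h7 : (sR μ R) ^ (q + 1) ≤ 1 := pow_le_one₀ (sR_nonneg ha R) (sR_le_one h0 h1 hs R)
      rw [le_div_iff₀ (by positivity), mul_comm]
      calc _ ≤ 1266 * (sR μ R) ^ (q + 1) := h6
        _ ≤ 1266 := by linarith
    have h2 : NU (ker μ m n R) ≤ (1266 / (q + 1)) ^ m := by
      rw [e]
      have hS : Sym ((sR μ R • (1 : A) - mR μ R) * mR μ R ^ q) :=
        (Sym_diff R).mul ((Sym_mR R).pow q)
      refine (NU_mul_le (hS.pow m) ((Sym_mR R).pow _)).trans ?_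
      calc _ ≤ NU ((sR μ R • (1 : A) - mR μ R) * mR μ R ^ q) ^ m * 1 :=
            mul_le_mul (NU_pow_le hS m) (NU_mR_pow_le h0 h1 hs ha R _) (NU_nonneg _)
              (pow_nonneg (NU_nonneg _) _)
        _ ≤ _ := by
            rw [mul_one]
            exact pow_le_pow_left₀ (NU_nonneg _) hd m
    have h3 : (n : ℝ) ≤ m * (q + 1) := by
      have : n ≤ m * (q + 1) := by
        have := Nat.mod_lt n hm
        rw [mul_add, mul_one]
        omega
      exact_mod_cast this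
    calc (n : ℝ) ^ m * NU (ker μ m n R) ≤ (m * (q + 1)) ^ m * (1266 / (q + 1)) ^ m := by
          refine mul_le_mul (pow_le_pow_left₀ (by positivity) h3 m) h2 (NU_nonneg _) (by positivity)
      _ = (1266 * m) ^ m := by
          rw [← mul_pow]
          congr 1
          field_simp

end order

section ap

variable {E : Type*} [NormedAddCommGroup E] [NormedSpace ℝ E]

/-- Convolution with a finitely supported kernel. -/
noncomputable def ap (K : A) (f : ℤ → E) (k : ℤ) : E := ∑' j : ℤ, K.coeff j • f (k - j)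

lemma summ_ap (K : A) (f : ℤ → E) (k : ℤ) : Summable fun j : ℤ => K.coeff j • f (k - j) :=
  summable_of_ne_finset_zero (s := K.coeff.support) fun _ hk => by
    rw [Finsupp.notMem_support_iff.1 hk, zero_smul]

lemma ap_add (K L : A) (f : ℤ → E) (k : ℤ) : ap (K + L) f k = ap K f k + ap L f k := by
  unfold ap
  rw [← (summ_ap K f k).tsum_add (summ_ap L f k)]
  congr 1
  ext j
  rw [AddMonoidAlgebra.coeff_add, Finsupp.add_apply, add_smul]

lemma ap_smul (c : ℝ) (K : A) (f : ℤ → E) (k : ℤ) : ap (c • K) f k = c • ap K f k := by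
  unfold ap
  rw [← (summ_ap K f k).tsum_const_smul c]
  congr 1
  ext j
  rw [AddMonoidAlgebra.coeff_smul_apply, smul_eq_mul, mul_smul]

lemma ap_zero (f : ℤ → E) (k : ℤ) : ap 0 f k = 0 := by
  unfold ap
  simp

lemma ap_sum {ι : Type*} (s : Finset ι) (K : ι → A) (f : ℤ → E) (k : ℤ) :
    ap (∑ i ∈ s, K i) f k = ∑ i ∈ s, ap (K i) f k := by
  classical
  induction s using Finset.induction_on with
  | empty => simp [ap_zero]
  | insert a s ha ih => rw [sum_insert ha, sum_insert ha, ap_add, ih]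

/-- The average of the norms over `{k - r, …, k + r}`. -/
noncomputable def av (f : ℤ → E) (k : ℤ) (r : ℕ) : ℝ :=
  (2 * (r : ℝ) + 1)⁻¹ * ∑ j ∈ Icc (k - r) (k + r), ‖f j‖

lemma norm_ap_U_le (r : ℕ) (f : ℤ → E) (k : ℤ) : ‖ap (U r) f k‖ ≤ av f k r := by
  have e : ap (U r) f k = ∑ j ∈ Icc (-(r : ℤ)) r, (2 * (r : ℝ) + 1)⁻¹ • f (k - j) := by
    unfold ap
    rw [tsum_eq_sum (s := Icc (-(r : ℤ)) r)]
    · refine sum_congr rfl fun j hj => ?_
      rw [coeff_U, if_pos (abs_le.2 (mem_Icc.1 hj))]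
    · intro j hj
      rw [coeff_U, if_neg (fun h => hj (mem_Icc.2 (abs_le.1 h))), zero_smul]
  rw [e]
  refine (norm_sum_le _ _).trans (le_of_eq ?_)
  unfold av
  rw [Finset.mul_sum]
  refine sum_nbij' (fun j => k - j) (fun j => k - j) ?_ ?_ ?_ ?_ ?_
  · intro j hj
    rw [mem_Icc] at hj ⊢
    omega
  · intro j hj
    rw [mem_Icc] at hj ⊢
    omega
  · intro j _; ring
  · intro j _; ring
  · intro j _
    rw [norm_smul, Real.norm_of_nonneg (by positivity)]

/-- The pointwise bound by averages. -/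
lemma norm_ap_le {K : A} (hK : Sym K) (f : ℤ → E) (k : ℤ) (B : ℝ) (hB : ∀ r, av f k r ≤ B) :
    ‖ap K f k‖ ≤ NU K * B := by
  obtain ⟨N, hN, hNs⟩ := hK.decomp
  have hB0 : 0 ≤ B := (norm_nonneg _).trans ((norm_ap_U_le 0 f k).trans (hB 0))
  have e : ap K f k = ∑ r ∈ range N, pw (fun k => K.coeff k) r • ap (U r) f k := by
    conv_lhs => rw [hN]
    unfold mR
    rw [ap_sum]
    exact sum_congr rfl fun r _ => ap_smul _ _ _ _
  rw [e]
  calc ‖∑ r ∈ range N, pw (fun k => K.coeff k) r • ap (U r) f k‖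
      ≤ ∑ r ∈ range N, |pw (fun k => K.coeff k) r| * B := by
        refine (norm_sum_le _ _).trans (sum_le_sum fun r _ => ?_)
        rw [norm_smul, Real.norm_eq_abs]
        exact mul_le_mul_of_nonneg_left ((norm_ap_U_le r f k).trans (hB r)) (abs_nonneg _)
    _ = (∑ r ∈ range N, |pw (fun k => K.coeff k) r|) * B := by rw [Finset.sum_mul]
    _ ≤ NU K * B := mul_le_mul_of_nonneg_right hNs hB0

omit [NormedSpace ℝ E] in
/-- Covering argument: the weak type bound for the maximal average. -/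
lemma card_le_of_av {f : ℤ → E} (hf : Summable fun k => ‖f k‖) {t : ℝ} (ht : 0 < t)
    (F : Finset ℤ) (hF : ∀ k ∈ F, ∃ r : ℕ, t < av f k r) :
    t * (F.card : ℝ) ≤ 4 * ∑' k, ‖f k‖ := by
  classical
  choose! r hr using hF
  obtain ⟨R, hR⟩ := (F.image r).exists_le
  obtain ⟨u, hu, hdis, hcov⟩ := Vitali.exists_disjoint_subfamily_covering_enlargement_closedBall
    (F : Set ℤ) id (fun k => (r k : ℝ)) (R : ℝ)
    (fun k hk => by exact_mod_cast hR _ (mem_image_of_mem r (by exact_mod_cast hk))) 4 (by norm_num)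
  have hufin : u.Finite := F.finite_toSet.subset hu
  set G := hufin.toFinset with hG
  have hGu : ∀ k, k ∈ G ↔ k ∈ u := fun k => hufin.mem_toFinset
  have hGF : ∀ k ∈ G, k ∈ F := fun k hk => by exact_mod_cast hu ((hGu k).1 hk)
  have hball : ∀ (k j : ℤ) (ρ : ℕ), j ∈ Metric.closedBall k (ρ : ℝ) ↔ j ∈ Icc (k - ρ) (k + ρ) := by
    intro k j ρ
    rw [Metric.mem_closedBall, Int.dist_eq, mem_Icc, abs_le]
    constructor
    · intro h
      have h2 : (-(ρ : ℤ) : ℤ) ≤ j - k ∧ j - k ≤ (ρ : ℤ) := by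
        constructor
        · have := h.1; exact_mod_cast this
        · have := h.2; exact_mod_cast this
      omega
    · intro h
      have h2 : (-(ρ : ℤ) : ℤ) ≤ j - k ∧ j - k ≤ (ρ : ℤ) := by omega
      constructor
      · have := h2.1; exact_mod_cast this
      · have := h2.2; exact_mod_cast this
  have hcovF : F ⊆ G.biUnion fun b => Icc (b - (4 * r b : ℕ)) (b + (4 * r b : ℕ)) := by
    intro k hk
    obtain ⟨b, hb, hsub⟩ := hcov k (by exact_mod_cast hk)
    rw [mem_biUnion]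
    refine ⟨b, (hGu b).2 hb, ?_⟩
    rw [← hball]
    have h3 : k ∈ Metric.closedBall (id k) ((r k : ℕ) : ℝ) :=
      Metric.mem_closedBall_self (by positivity)
    have h4 := hsub h3
    simpa using h4
  have hcard : (F.card : ℝ) ≤ ∑ b ∈ G, 4 * (2 * (r b : ℝ) + 1) := by
    have h3 : F.card ≤ ∑ b ∈ G, (8 * r b + 1) := by
      refine (card_le_card hcovF).trans (card_biUnion_le.trans (le_of_eq ?_))
      refine sum_congr rfl fun b _ => ?_
      rw [Int.card_Icc]
      push_cast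
      omega
    calc (F.card : ℝ) ≤ ((∑ b ∈ G, (8 * r b + 1) : ℕ) : ℝ) := by exact_mod_cast h3
      _ = ∑ b ∈ G, (8 * (r b : ℝ) + 1) := by push_cast; rfl
      _ ≤ _ := sum_le_sum fun b _ => by linarith
  have hdis' : ∀ a ∈ G, ∀ b ∈ G, a ≠ b →
      Disjoint (Icc (a - (r a : ℤ)) (a + r a)) (Icc (b - (r b : ℤ)) (b + r b)) := by
    intro a ha' b hb hab
    have h3 := hdis ((hGu a).1 ha') ((hGu b).1 hb) hab
    rw [Finset.disjoint_left]
    intro j hja hjb
    rw [← hball] at hja hjb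
    exact Set.disjoint_left.1 h3 hja hjb
  have hsum : ∑ b ∈ G, ∑ j ∈ Icc (b - (r b : ℤ)) (b + r b), ‖f j‖ ≤ ∑' k, ‖f k‖ := by
    rw [← sum_biUnion hdis']
    exact hf.sum_le_tsum _ fun _ _ => norm_nonneg _
  have hone : ∀ b ∈ G, t * (2 * (r b : ℝ) + 1) ≤ ∑ j ∈ Icc (b - (r b : ℤ)) (b + r b), ‖f j‖ := by
    intro b hb
    have h3 := (hr b (hGF b hb)).le
    unfold av at h3
    have h4 : (0:ℝ) < 2 * r b + 1 := by positivity
    rw [inv_mul_eq_div, le_div_iff₀ h4] at h3
    exact h3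
  calc t * (F.card : ℝ) ≤ t * ∑ b ∈ G, 4 * (2 * (r b : ℝ) + 1) :=
        mul_le_mul_of_nonneg_left hcard ht.le
    _ = 4 * ∑ b ∈ G, t * (2 * (r b : ℝ) + 1) := by
        rw [Finset.mul_sum, Finset.mul_sum]
        exact sum_congr rfl fun b _ => by ring
    _ ≤ 4 * ∑ b ∈ G, ∑ j ∈ Icc (b - (r b : ℤ)) (b + r b), ‖f j‖ :=
        mul_le_mul_of_nonneg_left (sum_le_sum hone) (by norm_num)
    _ ≤ _ := mul_le_mul_of_nonneg_left hsum (by norm_num)

end ap

section limit

/-- Dominated convergence of finitely supported kernels. -/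
structure Lim (a : ℕ → A) (F : ℤ → ℝ) : Prop where
  tend : ∀ k, Tendsto (fun R => (a R).coeff k) atTop (𝓝 (F k))
  dom : ∃ B : ℤ → ℝ, Summable B ∧ ∀ R k, |(a R).coeff k| ≤ B k

lemma conv_summable {B C : ℤ → ℝ} (hB : Summable B) (hC : Summable C) (hB0 : ∀ k, 0 ≤ B k)
    (hC0 : ∀ k, 0 ≤ C k) : Summable fun k => ∑' j, B j * C (k - j) := by
  have h1 : Summable fun p : ℤ × ℤ => B p.1 * C p.2 :=
    summable_mul_of_summable_norm
      (by simpa only [Real.norm_of_nonneg (hB0 _)] using hB)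
      (by simpa only [Real.norm_of_nonneg (hC0 _)] using hC)
  let e : ℤ × ℤ ≃ ℤ × ℤ :=
    { toFun := fun p => (p.2, p.1 - p.2)
      invFun := fun p => (p.1 + p.2, p.1)
      left_inv := fun p => by simp
      right_inv := fun p => by simp }
  have h2 : Summable fun p : ℤ × ℤ => B p.2 * C (p.1 - p.2) := e.summable_iff.2 h1
  exact h2.prod

lemma Lim.mul {a b : ℕ → A} {F G : ℤ → ℝ} (ha : Lim a F) (hb : Lim b G) :
    Lim (fun R => a R * b R) (cv F G) := by
  obtain ⟨B, hB, haB⟩ := ha.dom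
  obtain ⟨C, hC, hbC⟩ := hb.dom
  have hB0 : ∀ k, 0 ≤ B k := fun k => (abs_nonneg _).trans (haB 0 k)
  have hC0 : ∀ k, 0 ≤ C k := fun k => (abs_nonneg _).trans (hbC 0 k)
  have hCle : ∀ k, C k ≤ ∑' j, C j := fun k => hC.le_tsum k fun j _ => hC0 j
  have hs : ∀ k, Summable fun j => B j * C (k - j) := fun k =>
    (hB.mul_right (∑' j, C j)).of_nonneg_of_le (fun j => mul_nonneg (hB0 _) (hC0 _))
      fun j => mul_le_mul_of_nonneg_left (hCle _) (hB0 _)
  have hterm : ∀ R k j, ‖(a R).coeff j * (b R).coeff (k - j)‖ ≤ B j * C (k - j) := by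
    intro R k j
    rw [Real.norm_eq_abs, abs_mul]
    exact mul_le_mul (haB R j) (hbC R _) (abs_nonneg _) (hB0 _)
  refine ⟨fun k => ?_, fun k => ∑' j, B j * C (k - j), conv_summable hB hC hB0 hC0, ?_⟩
  · simp_rw [coeff_mul]
    exact tendsto_tsum_of_dominated_convergence (hs k)
      (fun j => (ha.tend j).mul (hb.tend (k - j))) (Eventually.of_forall fun R j => hterm R k j)
  · intro R k
    rw [coeff_mul, ← Real.norm_eq_abs]
    exact tsum_of_norm_bounded (hs k).hasSum fun j => hterm R k j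

lemma Lim.one : Lim (fun _ => (1 : A)) (fun k => if k = 0 then 1 else 0) := by
  refine ⟨fun k => ?_, fun k => if k = 0 then 1 else 0, ?_, ?_⟩
  · simp_rw [coeff_one]
    exact tendsto_const_nhds
  · exact summable_of_ne_finset_zero (s := {0}) fun k hk => by
      rw [if_neg (by simpa using hk)]
  · intro R k
    rw [coeff_one]
    split_ifs with h <;> simp [h]

lemma Lim.pow {a : ℕ → A} {F : ℤ → ℝ} (ha : Lim a F) (n : ℕ) :
    Lim (fun R => a R ^ n) (cvPow F n) := by
  induction n with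
  | zero =>
    simp_rw [pow_zero]
    exact Lim.one
  | succ n ih =>
    simp_rw [pow_succ']
    exact ha.mul ih

variable {μ : ℤ → ℝ} (h0 : ∀ k, 0 ≤ μ k) (h1 : HasSum μ 1) (hs : ∀ k, μ (-k) = μ k)
  (ha : ∀ n : ℕ, μ (n + 1) ≤ μ n)

include h0 h1 hs ha in
lemma Lim_mR : Lim (fun R => mR μ R) μ := by
  refine ⟨tendsto_coeff_mR h1 hs, μ, h1.summable, fun R k => ?_⟩
  rw [abs_of_nonneg (coeff_mR_nonneg ha R k)]
  exact coeff_mR_le h0 hs R k

include h0 h1 hs ha in
lemma Lim_diff : Lim (fun R => sR μ R • (1 : A) - mR μ R)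
    (fun k => (if k = 0 then 1 else 0) - μ k) := by
  have hL := Lim_mR h0 h1 hs ha
  have h1' := Lim.one
  refine ⟨fun k => ?_, fun k => (if k = 0 then 1 else 0) + μ k, ?_, ?_⟩
  · have h2 := (tendsto_sR h0 h1 hs ha).mul (h1'.tend k)
    rw [one_mul] at h2
    have h3 := h2.sub (hL.tend k)
    refine h3.congr fun R => ?_
    rw [AddMonoidAlgebra.coeff_sub, Finsupp.sub_apply, AddMonoidAlgebra.coeff_smul_apply,
      smul_eq_mul]
  · refine Summable.add ?_ h1.summable
    exact summable_of_ne_finset_zero (s := {0}) fun k hk => by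
      rw [if_neg (by simpa using hk)]
  · intro R k
    rw [AddMonoidAlgebra.coeff_sub, Finsupp.sub_apply, AddMonoidAlgebra.coeff_smul_apply,
      smul_eq_mul]
    refine (abs_sub _ _).trans (add_le_add ?_ ?_)
    · rw [coeff_one]
      have := sR_nonneg (μ := μ) ha R
      have := sR_le_one h0 h1 hs R
      split_ifs
      · rw [mul_one, abs_of_nonneg (by assumption)]
        assumption
      · simp
    · rw [abs_of_nonneg (coeff_mR_nonneg ha R k)]
      exact coeff_mR_le h0 hs R k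

/-- The kernel `μ^n * (δ₀ - μ)^m`. -/
noncomputable def kerLim (μ : ℤ → ℝ) (m n : ℕ) : ℤ → ℝ :=
  cv (cvPow μ n) (cvPow (fun k => (if k = 0 then 1 else 0) - μ k) m)

include h0 h1 hs ha in
lemma Lim_ker (m n : ℕ) : Lim (fun R => ker μ m n R) (kerLim μ m n) :=
  ((Lim_mR h0 h1 hs ha).pow n).mul ((Lim_diff h0 h1 hs ha).pow m)

variable {E : Type*} [NormedAddCommGroup E] [NormedSpace ℝ E] [CompleteSpace E]

lemma Lim.ap {a : ℕ → A} {F : ℤ → ℝ} (h : Lim a F) {f : ℤ → E} (hf : Summable fun k => ‖f k‖)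
    (k : ℤ) : Tendsto (fun R => ap (a R) f k) atTop (𝓝 (∑' j, F j • f (k - j))) := by
  obtain ⟨B, hB, haB⟩ := h.dom
  have hB0 : ∀ k, 0 ≤ B k := fun k => (abs_nonneg _).trans (haB 0 k)
  have hle : ∀ k, ‖f k‖ ≤ ∑' j, ‖f j‖ := fun k => hf.le_tsum k fun j _ => norm_nonneg _
  unfold RT.ap
  refine tendsto_tsum_of_dominated_convergence (bound := fun j => B j * ∑' j, ‖f j‖)
    (hB.mul_right _) (fun j => (h.tend j).smul_const _) (Eventually.of_forall fun R j => ?_)
  rw [norm_smul, Real.norm_eq_abs]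
  exact mul_le_mul (haB R j) (hle _) (norm_nonneg _) (hB0 _)

include h0 h1 hs ha in
/-- The pointwise bound for the kernels of order `m`. -/
lemma pointwise (m n : ℕ) {f : ℤ → E} (hf : Summable fun k => ‖f k‖) (k : ℤ) (B : ℝ)
    (hB : ∀ r, av f k r ≤ B) :
    (n : ℝ) ^ m * ‖∑' j, kerLim μ m n j • f (k - j)‖ ≤ (1266 * m) ^ m * B := by
  have hB0 : 0 ≤ B := by
    refine le_trans ?_ (hB 0)
    unfold av
    positivity
  have hlim := ((Lim_ker h0 h1 hs ha m n).ap hf k).norm.const_mul ((n : ℝ) ^ m)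
  refine le_of_tendsto hlim (Eventually.of_forall fun R => ?_)
  have h2 := norm_ap_le (Sym_ker (μ := μ) m n R) f k B hB
  have h3 := NU_ker_le h0 h1 hs ha m n R
  calc (n : ℝ) ^ m * ‖RT.ap (ker μ m n R) f k‖ ≤ (n : ℝ) ^ m * (NU (ker μ m n R) * B) :=
        mul_le_mul_of_nonneg_left h2 (by positivity)
    _ = ((n : ℝ) ^ m * NU (ker μ m n R)) * B := by ring
    _ ≤ _ := mul_le_mul_of_nonneg_right h3 hB0

end limit

end Pool.Agent.K6.H63.RT
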