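import Pool.Agent.K6.H63.RT.Weight

/-!
The bound `(n + 1) NU ((s - m) m ^ n) ≤ 1266 s ^ (n + 1)` for mixtures `m` of uniform measures of
total mass `s`.
-/

set_option autoImplicit false

namespace Pool.Agent.K6.H63.RT

open Finset Pool.Agent.R248.Ritt

/-- `1 - U r` is the second difference times an element of mass at most `r²/3` and first moment at
most `r³/3`. -/
lemma one_sub_U' (r : ℕ) : ∃ w : A, 1 - U r = w * (1 - T 1) * (1 - T (-1)) ∧
    N1 w ≤ (r : ℝ) ^ 2 / 3 ∧ W1 w ≤ r * ((r : ℝ) ^ 2 / 3) := by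
  have hG : ∀ x : ℕ, (1 - T 1) * ∑ i ∈ range x, T (i : ℤ) = 1 - T x := by
    intro x
    rw [Finset.mul_sum]
    have : ∀ i : ℕ, (1 - T 1) * T (i : ℤ) = T (i : ℤ) - T ((i + 1 : ℕ) : ℤ) := by
      intro i
      rw [sub_mul, one_mul, T_mul, add_comm]
      push_cast
      rfl
    simp only [this]
    rw [Finset.sum_range_sub' (fun i : ℕ => T (i : ℤ))]
    simp [T_zero]
  have hG' : ∀ x : ℕ, (1 - T (-1)) * ∑ i ∈ range x, T (-(i : ℤ)) = 1 - T (-(x : ℤ)) := by
    intro x
    rw [Finset.mul_sum]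
    have : ∀ i : ℕ, (1 - T (-1)) * T (-(i : ℤ)) = T (-(i : ℤ)) - T (-((i + 1 : ℕ) : ℤ)) := by
      intro i
      rw [sub_mul, one_mul, T_mul]
      congr 2
      push_cast
      ring
    simp only [this]
    rw [Finset.sum_range_sub' (fun i : ℕ => T (-(i : ℤ)))]
    simp [T_zero]
  set Q : ℕ → A := fun x => (∑ i ∈ range x, T (i : ℤ)) * ∑ i ∈ range x, T (-(i : ℤ)) with hQ
  have hQs : ∀ x : ℕ, Q x = ∑ i ∈ range x, ∑ j ∈ range x, T ((i : ℤ) - j) := by
    intro x
    rw [hQ]
    simp only
    rw [Finset.sum_mul_sum]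
    refine sum_congr rfl fun i _ => sum_congr rfl fun j _ => ?_
    rw [T_mul, sub_eq_add_neg]
  have hQN : ∀ x : ℕ, N1 (Q x) ≤ (x : ℝ) ^ 2 := by
    intro x
    rw [hQs]
    refine (N1_sum_le _ _).trans ?_
    have h1 : ∀ i ∈ range x, N1 (∑ j ∈ range x, T ((i : ℤ) - j)) ≤ x := by
      intro i _
      refine (N1_sum_le _ _).trans ?_
      simp [N1_T]
    refine (sum_le_sum h1).trans ?_
    simp [sq]
  have hQW : ∀ x : ℕ, W1 (Q x) ≤ (x : ℝ) * (x : ℝ) ^ 2 := by
    intro x
    rw [hQs]
    refine (W1_sum_le _ _).trans ?_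
    have h1 : ∀ i ∈ range x, W1 (∑ j ∈ range x, T ((i : ℤ) - j)) ≤ x * x := by
      intro i hi
      refine (W1_sum_le _ _).trans ?_
      have h2 : ∀ j ∈ range x, W1 (T ((i : ℤ) - j)) ≤ x := by
        intro j hj
        rw [W1_T]
        have hi' := Finset.mem_range.1 hi
        have hj' := Finset.mem_range.1 hj
        have h3 : |(i : ℤ) - j| ≤ x := by
          rw [abs_le]
          constructor <;> omega
        exact_mod_cast h3
      refine (sum_le_sum h2).trans ?_
      simp
    refine (sum_le_sum h1).trans (le_of_eq ?_)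
    rw [sum_const, card_range, nsmul_eq_mul]
    ring
  have hQD : ∀ x : ℕ, Q x * ((1 - T 1) * (1 - T (-1))) = 2 - T x - T (-(x : ℤ)) := by
    intro x
    have e : Q x * ((1 - T 1) * (1 - T (-1))) = (1 - T x) * (1 - T (-(x : ℤ))) := by
      rw [← hG, ← hG', hQ]
      ring
    rw [e]
    have h : T (x : ℤ) * T (-(x : ℤ)) = 1 := by rw [T_mul]; simp [T_zero]
    linear_combination h
  -- the symmetric form of `U r`
  have hU : ∀ r : ℕ, (2 * r + 1 : ℝ) • (1 - U r) = ∑ x ∈ range (r + 1), (2 - T x - T (-(x : ℤ))) := by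
    intro r
    have h1 : (2 * r + 1 : ℝ) • U r = ∑ i ∈ range (2 * r + 1), T ((i : ℤ) - r) := by
      unfold U
      rw [smul_smul, mul_inv_cancel₀ (by positivity), one_smul]
    have h2 : ∑ i ∈ range (2 * r + 1), T ((i : ℤ) - r) =
        ∑ x ∈ range (r + 1), (T (x : ℤ) + T (-(x : ℤ))) - 1 := by
      have h3 : ∑ i ∈ range (2 * r + 1), T ((i : ℤ) - r) =
          ∑ i ∈ range r, T ((i : ℤ) - r) + ∑ i ∈ range (r + 1), T (i : ℤ) := by
        rw [show 2 * r + 1 = r + (r + 1) by ring, sum_range_add]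
        congr 1
        refine sum_congr rfl fun i _ => ?_
        congr 1
        push_cast
        ring
      have h4 : ∑ i ∈ range r, T ((i : ℤ) - r) = ∑ i ∈ range r, T (-((i + 1 : ℕ) : ℤ)) := by
        rw [← Finset.sum_range_reflect]
        refine sum_congr rfl fun i hi => ?_
        have := Finset.mem_range.1 hi
        congr 1
        omega
      have h5 := Finset.sum_range_succ' (fun i : ℕ => T (-(i : ℤ))) r
      rw [h3, h4, sum_add_distrib, h5]
      simp [T_zero]
      ring
    rw [smul_sub, h1, h2]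
    have h6 : ∑ x ∈ range (r + 1), (2 - T (x:ℤ) - T (-(x : ℤ))) =
        (r + 1 : ℕ) • (2 : A) - ∑ x ∈ range (r + 1), (T (x : ℤ) + T (-(x : ℤ))) := by
      have : ∀ x : ℕ, 2 - T (x:ℤ) - T (-(x : ℤ)) = 2 - (T (x : ℤ) + T (-(x : ℤ))) := fun x => by ring
      simp only [this]
      rw [sum_sub_distrib]
      simp
    rw [h6]
    have h7 : (2 * r + 1 : ℝ) • (1 : A) = (r + 1 : ℕ) • (2 : A) - 1 := by
      have e1 : (2 * r + 1 : ℝ) • (1 : A) = ((2 * r + 1 : ℕ) : A) := by
        have := Nat.cast_smul_eq_nsmul ℝ (2 * r + 1) (1 : A)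
        rw [nsmul_one] at this
        rw [← this]
        push_cast
        rfl
      rw [e1, nsmul_eq_mul]
      push_cast
      ring
    rw [h7]
    ring
  have hsq : ∀ r : ℕ, ∑ x ∈ range (r + 1), (x : ℝ) ^ 2 = (r : ℝ) * (r + 1) * (2 * r + 1) / 6 := by
    intro r
    induction r with
    | zero => simp
    | succ n ih =>
      rw [sum_range_succ, ih]
      push_cast
      ring
  have hlast : (2 * (r:ℝ) + 1)⁻¹ * ((r : ℝ) * (r + 1) * (2 * r + 1) / 6) ≤ (r : ℝ) ^ 2 / 3 := by
    have e : (2 * (r:ℝ) + 1)⁻¹ * ((r : ℝ) * (r + 1) * (2 * r + 1) / 6) = (r : ℝ) * (r + 1) / 6 := by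
      field_simp
    rw [e]
    rcases Nat.eq_zero_or_pos r with h | h
    · subst h; simp
    · have : (1:ℝ) ≤ r := by exact_mod_cast h
      nlinarith
  refine ⟨((2 * r + 1 : ℝ))⁻¹ • ∑ x ∈ range (r + 1), Q x, ?_, ?_, ?_⟩
  · have h1 : (2 * r + 1 : ℝ) • (1 - U r) =
        (∑ x ∈ range (r + 1), Q x) * ((1 - T 1) * (1 - T (-1))) := by
      rw [hU, Finset.sum_mul]
      exact sum_congr rfl fun x _ => (hQD x).symm
    have h2 : 1 - U r = ((2 * r + 1 : ℝ))⁻¹ • ((2 * r + 1 : ℝ) • (1 - U r)) := by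
      rw [smul_smul, inv_mul_cancel₀ (by positivity), one_smul]
    rw [h2, h1, mul_assoc, smul_mul_assoc]
  · rw [N1_smul, abs_of_pos (by positivity)]
    have h1 : N1 (∑ x ∈ range (r + 1), Q x) ≤ (r : ℝ) * (r + 1) * (2 * r + 1) / 6 := by
      rw [← hsq]
      exact (N1_sum_le _ _).trans (sum_le_sum fun x _ => hQN x)
    exact (mul_le_mul_of_nonneg_left h1 (by positivity)).trans hlast
  · rw [W1_smul, abs_of_pos (by positivity)]
    have h1 : W1 (∑ x ∈ range (r + 1), Q x) ≤ r * ((r : ℝ) * (r + 1) * (2 * r + 1) / 6) := by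
      rw [← hsq, Finset.mul_sum]
      refine (W1_sum_le _ _).trans (sum_le_sum fun x hx => (hQW x).trans ?_)
      have hx' := Finset.mem_range.1 hx
      have : (x : ℝ) ≤ r := by exact_mod_cast (by omega : x ≤ r)
      exact mul_le_mul_of_nonneg_right this (sq_nonneg _)
    calc (2 * (r:ℝ) + 1)⁻¹ * W1 (∑ x ∈ range (r + 1), Q x)
        ≤ (2 * (r:ℝ) + 1)⁻¹ * (r * ((r : ℝ) * (r + 1) * (2 * r + 1) / 6)) :=
          mul_le_mul_of_nonneg_left h1 (by positivity)
      _ = r * ((2 * (r:ℝ) + 1)⁻¹ * ((r : ℝ) * (r + 1) * (2 * r + 1) / 6)) := by ring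
      _ ≤ _ := mul_le_mul_of_nonneg_left hlast (by positivity)

/-- Splitting of a finite set into three classes of comparable sums. -/
lemma split3 {ι : Type*} [DecidableEq ι] (x : ι → ℝ) (hx : ∀ i, 0 ≤ x i) (I : Finset ι) :
    3 ≤ I.card → ∃ (col : ι → Fin 3) (t : Fin 3 → ι), (∀ j, t j ∈ I ∧ col (t j) = j) ∧
      (∀ i ∈ I, x i ≤ x (t (col i))) ∧
      ∀ j l, ∑ i ∈ (I.filter (fun i => col i = j)).erase (t j), x i ≤
        ∑ i ∈ I.filter (fun i => col i = l), x i := by
  induction I using Finset.induction_on_min_value x with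
  | empty => intro h; simp at h
  | insert c s hcs hmin ih =>
    intro hcard
    rcases Nat.lt_or_ge s.card 3 with h1 | h1
    · have h2 : (insert c s).card = 3 := by
        rw [card_insert_of_notMem hcs] at hcard ⊢
        omega
      set I := insert c s with hI
      have e := I.equivFinOfCardEq h2
      refine ⟨fun i => if h : i ∈ I then e ⟨i, h⟩ else 0, fun j => (e.symm j : ι), ?_, ?_, ?_⟩
      · intro j
        refine ⟨(e.symm j).2, ?_⟩
        simp
      · intro i hi
        simp [hi]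
      · intro j l
        have h3 : (I.filter (fun i => (if h : i ∈ I then e ⟨i, h⟩ else 0) = j)).erase
            (e.symm j : ι) = ∅ := by
          rw [eq_empty_iff_forall_notMem]
          intro i hi
          rw [mem_erase, mem_filter] at hi
          obtain ⟨hne, hiI, hj⟩ := hi
          rw [dif_pos hiI] at hj
          apply hne
          rw [← hj, Equiv.symm_apply_apply]
        rw [h3, sum_empty]
        exact sum_nonneg fun i _ => hx i
    · obtain ⟨col, t, ht, hmax, hsum⟩ := ih h1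
      set E : Fin 3 → ℝ := fun j => ∑ i ∈ (s.filter (fun i => col i = j)).erase (t j), x i with hE
      set V : Fin 3 → ℝ := fun j => ∑ i ∈ s.filter (fun i => col i = j), x i with hV
      have hVE : ∀ j, V j = x (t j) + E j := by
        intro j
        have : t j ∈ s.filter (fun i => col i = j) := mem_filter.2 (ht j)
        exact (add_sum_erase _ _ this).symm
      obtain ⟨j₀, hj₀⟩ := Finite.exists_min E
      set col' : ι → Fin 3 := Function.update col c j₀ with hcol'
      have hc' : col' c = j₀ := Function.update_self _ _ _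
      have hne : ∀ i ∈ s, col' i = col i := fun i hi =>
        Function.update_of_ne (fun h : i = c => hcs (h ▸ hi)) _ _
      have hfil : ∀ j, (s.filter (fun i => col' i = j)) = s.filter (fun i => col i = j) := by
        intro j
        exact filter_congr fun i hi => by rw [hne i hi]
      have hV' : ∀ j, ∑ i ∈ (insert c s).filter (fun i => col' i = j), x i =
          (if j = j₀ then x c else 0) + V j := by
        intro j
        rw [filter_insert, hc']
        by_cases h : j = j₀
        · rw [if_pos h.symm, sum_insert (by simp [hcs]), hfil, if_pos h]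
        · rw [if_neg (fun h' => h h'.symm), hfil, if_neg h, zero_add]
      have hE' : ∀ j, ∑ i ∈ ((insert c s).filter (fun i => col' i = j)).erase (t j), x i =
          (if j = j₀ then x c else 0) + E j := by
        intro j
        have hmem : t j ∈ (insert c s).filter (fun i => col' i = j) := by
          refine mem_filter.2 ⟨mem_insert_of_mem (ht j).1, ?_⟩
          rw [hne _ (ht j).1]
          exact (ht j).2
        have h5 := add_sum_erase _ x hmem
        have h6 := hV' j
        have h7 := hVE j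
        linarith
      refine ⟨col', t, ?_, ?_, ?_⟩
      · intro j
        refine ⟨mem_insert_of_mem (ht j).1, ?_⟩
        rw [hne _ (ht j).1]
        exact (ht j).2
      · intro i hi
        rcases mem_insert.1 hi with rfl | hi
        · rw [hc']
          exact hmin _ (ht j₀).1
        · rw [hne i hi]
          exact hmax i hi
      · intro j l
        rw [hE', hV']
        have h8 : E j ≤ V l := hsum j l
        have h9 := hVE l
        have h10 := hj₀ l
        have h11 := hmin _ (ht l).1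
        have h12 := hx c
        have h13 := hx (t l)
        split_ifs with h14 h15 h15
        · linarith
        · subst h14
          linarith
        · linarith
        · linarith

/-- The main estimate for a product of three symmetric unimodal elements of mass at most one. -/
lemma NU_three (k : ℕ) {f g h : A} (hf : SU f) (hg : SU g) (hh : SU h)
    (hf1 : NU f ≤ 1) (hg1 : NU g ≤ 1) (hh1 : NU h ≤ 1) :
    NU ((1 - U k) * (f * g * h)) ≤ (k : ℝ) ^ 2 / 3 *
      (k * (2 * f.coeff 0) * (2 * g.coeff 0) * (2 * h.coeff 0) +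
        ((2 * g.coeff 0) * (2 * h.coeff 0) + (2 * f.coeff 0) * (2 * h.coeff 0) +
          (2 * f.coeff 0) * (2 * g.coeff 0))) := by
  obtain ⟨w, hw, hwN, hwW⟩ := one_sub_U' k
  have h1 : (1 - T 1) * ((1 - U k) * (f * g * h)) =
      w * (((1 - T 1) * f) * (((1 - T (-1)) * g) * ((1 - T 1) * h))) := by
    rw [hw]; ring
  have nf : N1 ((1 - T 1) * f) = 2 * f.coeff 0 := hf.N1_diff
  have ng : N1 ((1 - T (-1)) * g) = 2 * g.coeff 0 := by rw [N1_diff', hg.N1_diff]
  have nh : N1 ((1 - T 1) * h) = 2 * h.coeff 0 := hh.N1_diff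
  have wf : W1 ((1 - T 1) * f) ≤ 1 := hf1
  have wg : W1 ((1 - T (-1)) * g) ≤ 1 := by rw [W1_diff' hg.sym]; exact hg1
  have wh : W1 ((1 - T 1) * h) ≤ 1 := hh1
  have f0 := hf.nonneg 0
  have g0 := hg.nonneg 0
  have h0 := hh.nonneg 0
  set F := (1 - T 1) * f
  set G := (1 - T (-1)) * g
  set H := (1 - T 1) * h
  set a := 2 * f.coeff 0
  set b := 2 * g.coeff 0
  set c := 2 * h.coeff 0
  have a0 : 0 ≤ a := by positivity
  have b0 : 0 ≤ b := by positivity
  have c0 : 0 ≤ c := by positivity
  have hGH : N1 (G * H) ≤ b * c := by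
    rw [← ng, ← nh]; exact N1_mul_le _ _
  have hGHw : W1 (G * H) ≤ c + b := by
    refine (W1_mul_le _ _).trans ?_
    rw [ng, nh]
    have := mul_le_mul_of_nonneg_right wg c0
    have := mul_le_mul_of_nonneg_left wh b0
    linarith
  have hFGH : N1 (F * (G * H)) ≤ a * (b * c) := by
    refine (N1_mul_le _ _).trans ?_
    rw [nf]
    exact mul_le_mul_of_nonneg_left hGH a0
  have hFGHw : W1 (F * (G * H)) ≤ b * c + a * (c + b) := by
    refine (W1_mul_le _ _).trans ?_
    rw [nf]
    refine add_le_add ?_ (mul_le_mul_of_nonneg_left hGHw a0)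
    calc W1 F * N1 (G * H) ≤ 1 * (b * c) := mul_le_mul wf hGH (N1_nonneg _) (by norm_num)
      _ = b * c := one_mul _
  have hk : (0:ℝ) ≤ (k : ℝ) ^ 2 / 3 := by positivity
  unfold NU
  rw [h1]
  calc W1 (w * (F * (G * H))) ≤ W1 w * N1 (F * (G * H)) + N1 w * W1 (F * (G * H)) := W1_mul_le _ _
    _ ≤ (k * ((k : ℝ) ^ 2 / 3)) * (a * (b * c)) + ((k : ℝ) ^ 2 / 3) * (b * c + a * (c + b)) := by
        refine add_le_add ?_ ?_
        · exact mul_le_mul hwW hFGH (N1_nonneg _) (by positivity)
        · exact mul_le_mul hwN hFGHw (W1_nonneg _) hk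
    _ = _ := by ring

lemma NU_term_le_two {ι : Type*} [DecidableEq ι] (I : Finset ι) (r : ι → ℕ) (i : ι) (hi : i ∈ I) :
    NU (term I r i) ≤ 2 := by
  have e : term I r i = ∏ l ∈ I.erase i, U (r l) - ∏ l ∈ I, U (r l) := by
    unfold term
    rw [sub_mul, one_mul, mul_prod_erase I (fun i => U (r i)) hi]
  rw [e]
  refine (NU_sub_le _ _).trans ?_
  linarith [NU_prod_U_le (I.erase i) r, NU_prod_U_le I r]

/-- The bound for one term that is not a top of its class. -/
lemma group_NU {ι : Type*} [DecidableEq ι] (I : Finset ι) (r : ι → ℕ) (col : ι → Fin 3)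
    (t : Fin 3 → ι) (ht : ∀ j, t j ∈ I ∧ col (t j) = j)
    (hmax : ∀ i ∈ I, (r i : ℝ) ^ 2 ≤ (r (t (col i)) : ℝ) ^ 2) (i : ι) (hi : i ∈ I)
    (hit : i ≠ t (col i)) (z : ℝ) (hz : 0 ≤ z)
    (hzV : ∀ l, z ≤ ∑ q ∈ I.filter (fun q => col q = l), (r q : ℝ) ^ 2) :
    NU (term I r i) * z ≤ 420 * (r i : ℝ) ^ 2 := by
  set F : Fin 3 → A := fun l => ∏ q ∈ (I.erase i).filter (fun q => col q = l), U (r q) with hF
  have e1 : term I r i = (1 - U (r i)) * (F 0 * F 1 * F 2) := by
    unfold term
    rw [← Finset.prod_fiberwise (I.erase i) col, Fin.prod_univ_three]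
  have hSU : ∀ l, SU (F l) := fun l => SU_prod _ _
  have h0 := fun l => (hSU l).nonneg 0
  have hNU : ∀ l, NU (F l) ≤ 1 := fun l => NU_prod_U_le _ _
  set b : Fin 3 → ℝ := fun l => 2 * (F l).coeff 0 with hb
  have hb0 : ∀ l, 0 ≤ b l := fun l => mul_nonneg (by norm_num) (h0 l)
  have hV' : ∀ l, b l ^ 2 * ∑ q ∈ (I.erase i).filter (fun q => col q = l), (r q : ℝ) ^ 2 ≤ 30 := by
    intro l
    have := prod_U_zero ((I.erase i).filter (fun q => col q = l)) r
    have h2 : b l ^ 2 * ∑ q ∈ (I.erase i).filter (fun q => col q = l), (r q : ℝ) ^ 2 =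
        4 * ((F l).coeff 0 ^ 2 * ∑ q ∈ (I.erase i).filter (fun q => col q = l), (r q : ℝ) ^ 2) := by
      rw [hb]; ring
    rw [h2]
    linarith
  -- the class of `i`
  have hown : (r i : ℝ) ^ 2 ≤ ∑ q ∈ (I.erase i).filter (fun q => col q = col i), (r q : ℝ) ^ 2 := by
    refine (hmax i hi).trans ?_
    refine single_le_sum (f := fun q => (r q : ℝ) ^ 2) (fun q _ => sq_nonneg _) ?_
    rw [mem_filter, mem_erase]
    exact ⟨⟨hit.symm, (ht _).1⟩, (ht _).2⟩
  have hVV : ∀ l, ∑ q ∈ I.filter (fun q => col q = l), (r q : ℝ) ^ 2 ≤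
      2 * ∑ q ∈ (I.erase i).filter (fun q => col q = l), (r q : ℝ) ^ 2 := by
    intro l
    have e2 : (I.erase i).filter (fun q => col q = l) = (I.filter (fun q => col q = l)).erase i := by
      rw [filter_erase]
    by_cases hl : col i = l
    · subst hl
      have hm : i ∈ I.filter (fun q => col q = col i) := mem_filter.2 ⟨hi, rfl⟩
      have h3 := add_sum_erase _ (fun q => (r q : ℝ) ^ 2) hm
      rw [← e2] at h3
      linarith
    · have hm : i ∉ I.filter (fun q => col q = l) := fun h => hl (mem_filter.1 h).2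
      rw [e2, erase_eq_of_notMem hm]
      have : 0 ≤ ∑ q ∈ I.filter (fun q => col q = l), (r q : ℝ) ^ 2 :=
        sum_nonneg fun _ _ => sq_nonneg _
      linarith
  have hbz : ∀ l, b l ^ 2 * z ≤ 60 := by
    intro l
    have h3 := (hzV l).trans (hVV l)
    have h4 := mul_le_mul_of_nonneg_left h3 (sq_nonneg (b l))
    have h5 := hV' l
    nlinarith
  have hpair : ∀ l m, b l * b m * z ≤ 60 := by
    intro l m
    have h3 := mul_le_mul (hbz l) (hbz m) (by positivity) (by norm_num)
    have h4 : (b l * b m * z) ^ 2 ≤ 60 ^ 2 := by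
      calc (b l * b m * z) ^ 2 = b l ^ 2 * z * (b m ^ 2 * z) := by ring
        _ ≤ _ := h3.trans (by norm_num)
    exact le_of_sq_le_sq h4 (by norm_num)
  have hri : r i * b (col i) ≤ 6 := by
    have h3 := mul_le_mul_of_nonneg_left hown (sq_nonneg (b (col i)))
    have h4 : (r i * b (col i)) ^ 2 ≤ 6 ^ 2 := by
      calc (r i * b (col i)) ^ 2 = b (col i) ^ 2 * (r i : ℝ) ^ 2 := by ring
        _ ≤ 30 := h3.trans (hV' _)
        _ ≤ 6 ^ 2 := by norm_num
    exact le_of_sq_le_sq h4 (by norm_num)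
  have main := NU_three (r i) (hSU 0) (hSU 1) (hSU 2) (hNU 0) (hNU 1) (hNU 2)
  rw [← e1] at main
  have hr0 : (0:ℝ) ≤ r i := by positivity
  have p01 : 0 ≤ b 0 * b 1 := mul_nonneg (hb0 0) (hb0 1)
  have p02 : 0 ≤ b 0 * b 2 := mul_nonneg (hb0 0) (hb0 2)
  have p12 : 0 ≤ b 1 * b 2 := mul_nonneg (hb0 1) (hb0 2)
  have h012 : r i * b 0 * b 1 * b 2 ≤ 6 * (b 1 * b 2 + b 0 * b 2 + b 0 * b 1) := by
    have hc : ∀ j : Fin 3, r i * b j ≤ 6 → r i * b 0 * b 1 * b 2 ≤
        6 * (b 1 * b 2 + b 0 * b 2 + b 0 * b 1) := by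
      intro j
      fin_cases j
      · intro h
        have := mul_le_mul_of_nonneg_right h p12
        simp only [Fin.zero_eta] at this
        nlinarith
      · intro h
        have := mul_le_mul_of_nonneg_right h p02
        simp only [Fin.mk_one] at this
        nlinarith
      · intro h
        have := mul_le_mul_of_nonneg_right h p01
        simp only [Fin.reduceFinMk] at this
        nlinarith
    exact hc _ hri
  have h7 : NU (term I r i) ≤ (r i : ℝ) ^ 2 / 3 * (7 * (b 1 * b 2 + b 0 * b 2 + b 0 * b 1)) := by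
    refine main.trans ?_
    refine mul_le_mul_of_nonneg_left ?_ (by positivity)
    change r i * b 0 * b 1 * b 2 + (b 1 * b 2 + b 0 * b 2 + b 0 * b 1) ≤ _
    linarith
  calc NU (term I r i) * z
      ≤ (r i : ℝ) ^ 2 / 3 * (7 * (b 1 * b 2 + b 0 * b 2 + b 0 * b 1)) * z :=
        mul_le_mul_of_nonneg_right h7 hz
    _ = (r i : ℝ) ^ 2 / 3 * (7 * (b 1 * b 2 * z + b 0 * b 2 * z + b 0 * b 1 * z)) := by ring
    _ ≤ (r i : ℝ) ^ 2 / 3 * (7 * (60 + 60 + 60)) := by
        refine mul_le_mul_of_nonneg_left ?_ (by positivity)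
        have := hpair 1 2
        have := hpair 0 2
        have := hpair 0 1
        linarith
    _ = 420 * (r i : ℝ) ^ 2 := by ring
where
  le_of_sq_le_sq {x y : ℝ} (h : x ^ 2 ≤ y ^ 2) (hy : 0 ≤ y) : x ≤ y := by
    by_contra hc
    push Not at hc
    nlinarith

lemma sum_term_NU {ι : Type*} [DecidableEq ι] (I : Finset ι) (r : ι → ℕ) :
    ∑ i ∈ I, NU (term I r i) ≤ 1266 := by
  rcases Nat.lt_or_ge I.card 3 with hI | hI
  · calc ∑ i ∈ I, NU (term I r i) ≤ ∑ _i ∈ I, (2:ℝ) :=
          sum_le_sum fun i hi => NU_term_le_two I r i hi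
      _ = I.card * 2 := by rw [sum_const, nsmul_eq_mul]
      _ ≤ 3 * 2 := by
          have : (I.card : ℝ) ≤ 3 := by exact_mod_cast hI.le
          linarith
      _ ≤ 1266 := by norm_num
  · obtain ⟨col, t, ht, hmax, hsum⟩ := split3 (fun i => (r i : ℝ) ^ 2) (fun i => sq_nonneg _) I hI
    rw [← Finset.sum_fiberwise I col]
    have key : ∀ j : Fin 3, ∑ i ∈ I.filter (fun i => col i = j), NU (term I r i) ≤ 422 := by
      intro j
      have hm : t j ∈ I.filter (fun i => col i = j) := mem_filter.2 (ht j)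
      rw [← add_sum_erase _ _ hm]
      have h2 := NU_term_le_two I r (t j) (ht j).1
      set E := (I.filter (fun i => col i = j)).erase (t j) with hE
      set z := ∑ i ∈ E, (r i : ℝ) ^ 2 with hz
      have hz0 : 0 ≤ z := sum_nonneg fun _ _ => sq_nonneg _
      have hmem : ∀ i ∈ E, i ∈ I ∧ col i = j ∧ i ≠ t j := by
        intro i hi
        rw [hE, mem_erase, mem_filter] at hi
        exact ⟨hi.2.1, hi.2.2, hi.1⟩
      have h3 : (∑ i ∈ E, NU (term I r i)) * z ≤ 420 * z := by
        rw [Finset.sum_mul, hz, Finset.mul_sum]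
        refine sum_le_sum fun i hi => ?_
        obtain ⟨hiI, hij, hit⟩ := hmem i hi
        refine group_NU I r col t ht hmax i hiI ?_ _ hz0 (fun l => hsum j l)
        rw [hij]
        exact hit
      have h4 : ∑ i ∈ E, NU (term I r i) ≤ 420 := by
        rcases hz0.eq_or_lt with h0 | h0
        · have : ∑ i ∈ E, NU (term I r i) = 0 := by
            refine sum_eq_zero fun i hi => ?_
            have h5 := single_le_sum (f := fun l => (r l : ℝ) ^ 2) (fun l _ => sq_nonneg _) hi
            have h6 : (r i : ℝ) ^ 2 = 0 := le_antisymm (by linarith) (sq_nonneg _)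
            have h7 : r i = 0 := by
              exact_mod_cast pow_eq_zero_iff (two_ne_zero) |>.1 h6
            unfold term
            rw [h7, U_zero, sub_self, zero_mul, NU_zero]
          rw [this]
          norm_num
        · exact le_of_mul_le_mul_right h3 h0
      linarith
    calc ∑ j : Fin 3, ∑ i ∈ I.filter (fun i => col i = j), NU (term I r i)
        ≤ ∑ _j : Fin 3, (422:ℝ) := sum_le_sum fun j _ => key j
      _ = 1266 := by norm_num

/-- The bound for finite mixtures of uniform measures. -/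
theorem mixture_NU (p : ℕ → ℝ) (hp : ∀ j, 0 ≤ p j) (R n : ℕ) :
    (n + 1) * NU (((∑ j ∈ range R, p j) • (1 : A) - ∑ j ∈ range R, p j • U j) *
      (∑ j ∈ range R, p j • U j) ^ n) ≤ 1266 * (∑ j ∈ range R, p j) ^ (n + 1) := by
  set s := ∑ j ∈ range R, p j with hs
  set m := ∑ j ∈ range R, p j • U j with hm
  have key : ∀ i : Fin (n + 1), NU ((s • (1 : A) - m) * m ^ n) ≤
      ∑ x ∈ Fintype.piFinset (fun _ : Fin (n + 1) => range R),
        (∏ l, p (x l)) * NU (term univ x i) := by
    intro i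
    have h1 : (s • (1 : A) - m) * m ^ n =
        ∏ l : Fin (n + 1), ∑ j ∈ range R, p j • (if l = i then 1 - U j else U j) := by
      rw [← mul_prod_erase univ _ (mem_univ i)]
      congr 1
      · simp only [if_true]
        rw [hs, hm, Finset.sum_smul, ← sum_sub_distrib]
        exact sum_congr rfl fun j _ => by rw [smul_sub]
      · have : ∀ l ∈ univ.erase i, (∑ j ∈ range R, p j • (if l = i then 1 - U j else U j)) = m := by
          intro l hl
          rw [hm]
          exact sum_congr rfl fun j _ => by rw [if_neg (mem_erase.1 hl).1]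
        rw [prod_congr rfl this, prod_const, card_erase_of_mem (mem_univ i)]
        simp
    rw [h1, prod_univ_sum]
    refine (NU_sum_le _ _).trans (sum_le_sum fun x _ => ?_)
    have h2 : ∏ l, (p (x l) • (if l = i then 1 - U (x l) else U (x l)) : A) =
        (∏ l, p (x l)) • term univ x i := by
      simp only [Algebra.smul_def]
      rw [prod_mul_distrib, ← map_prod]
      congr 1
      unfold term
      rw [← mul_prod_erase univ _ (mem_univ i), if_pos rfl]
      congr 1
      exact prod_congr rfl fun l hl => by rw [if_neg (mem_erase.1 hl).1]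
    rw [h2, NU_smul, abs_of_nonneg (prod_nonneg fun l _ => hp _)]
  have h3 : ((n : ℝ) + 1) * NU ((s • (1 : A) - m) * m ^ n) =
      ∑ _i : Fin (n + 1), NU ((s • (1 : A) - m) * m ^ n) := by
    rw [sum_const, card_univ, Fintype.card_fin, nsmul_eq_mul]
    push_cast
    rfl
  rw [h3]
  refine (sum_le_sum fun i _ => key i).trans ?_
  rw [sum_comm]
  have h4 : ∀ x ∈ Fintype.piFinset (fun _ : Fin (n + 1) => range R),
      ∑ i, (∏ l, p (x l)) * NU (term univ x i) ≤ 1266 * ∏ l, p (x l) := by
    intro x _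
    rw [← Finset.mul_sum, mul_comm (1266:ℝ)]
    exact mul_le_mul_of_nonneg_left (sum_term_NU univ x) (prod_nonneg fun l _ => hp _)
  refine (sum_le_sum h4).trans (le_of_eq ?_)
  rw [← Finset.mul_sum, ← prod_univ_sum (fun _ : Fin (n + 1) => range R) (fun _ j => p j)]
  simp [hs]

end Pool.Agent.K6.H63.RT
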