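import Pool.Agent.R248.Ritt.Trans

/-!
The norm `NU f = ∑ |k| |f(k) - f(k-1)|` of symmetric finitely supported functions on the integers.
For symmetric `f` it is the sum of the absolute values of the coefficients of `f` in the basis of
the uniform measures `U r`.
-/

set_option autoImplicit false

namespace Pool.Agent.K6.H63.RT

open Finset Pool.Agent.R248.Ritt

lemma summW (f : A) : Summable fun k : ℤ => |(k : ℝ)| * |f.coeff k| :=
  summable_of_ne_finset_zero (s := f.coeff.support) fun _ hk => by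
    rw [Finsupp.notMem_support_iff.1 hk, abs_zero, mul_zero]

/-- The first absolute moment. -/
noncomputable def W1 (f : A) : ℝ := ∑' k : ℤ, |(k : ℝ)| * |f.coeff k|

lemma W1_nonneg (f : A) : 0 ≤ W1 f := tsum_nonneg fun _ => by positivity

lemma W1_zero : W1 0 = 0 := by simp [W1]

lemma W1_add_le (f g : A) : W1 (f + g) ≤ W1 f + W1 g := by
  unfold W1
  rw [← (summW f).tsum_add (summW g)]
  refine (summW _).tsum_le_tsum (fun k => ?_) ((summW f).add (summW g))
  rw [← mul_add]
  exact mul_le_mul_of_nonneg_left (by rw [AddMonoidAlgebra.coeff_add]; exact abs_add_le _ _)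
    (abs_nonneg _)

lemma W1_sum_le {ι : Type*} (s : Finset ι) (f : ι → A) : W1 (∑ i ∈ s, f i) ≤ ∑ i ∈ s, W1 (f i) := by
  classical
  induction s using Finset.induction_on with
  | empty => simp [W1_zero]
  | insert a s ha ih =>
    rw [sum_insert ha, sum_insert ha]
    exact (W1_add_le _ _).trans (by linarith)

lemma W1_smul (c : ℝ) (f : A) : W1 (c • f) = |c| * W1 f := by
  unfold W1
  rw [← tsum_mul_left]
  congr 1
  ext k
  rw [AddMonoidAlgebra.coeff_smul_apply, smul_eq_mul, abs_mul]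
  ring

lemma W1_neg (f : A) : W1 (-f) = W1 f := by
  unfold W1
  congr 1
  ext k
  rw [AddMonoidAlgebra.coeff_neg, Finsupp.neg_apply, abs_neg]

lemma W1_single_mul (k : ℤ) (a : ℝ) (f : A) :
    W1 (AddMonoidAlgebra.single k a * f) ≤ |a| * (|(k : ℝ)| * N1 f + W1 f) := by
  unfold W1 N1
  rw [← tsum_mul_left, ← ((summ f).mul_left _).tsum_add (summW f), ← tsum_mul_left,
    ← (Equiv.addLeft k).tsum_eq]
  refine Summable.tsum_le_tsum (fun j => ?_) ?_ ?_
  · rw [AddMonoidAlgebra.coeff_single_mul_apply, abs_mul]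
    simp only [Equiv.coe_addLeft, neg_add_cancel_left]
    have h : |((k + j : ℤ) : ℝ)| ≤ |(k : ℝ)| + |(j : ℝ)| := by
      push_cast
      exact abs_add_le _ _
    have h2 : 0 ≤ |a| * |f.coeff j| := by positivity
    nlinarith
  · exact (Equiv.addLeft k).summable_iff.2 (summW (AddMonoidAlgebra.single k a * f))
  · exact (((summ f).mul_left _).add (summW f)).mul_left _

lemma W1_mul_le (f g : A) : W1 (f * g) ≤ W1 f * N1 g + N1 f * W1 g := by
  have h : f * g = ∑ k ∈ f.coeff.support, AddMonoidAlgebra.single k (f.coeff k) * g := by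
    conv_lhs => rw [← AddMonoidAlgebra.sum_coeff_single f]
    rw [Finsupp.sum, Finset.sum_mul]
  rw [h]
  refine (W1_sum_le _ _).trans ?_
  refine (sum_le_sum fun k _ => W1_single_mul k (f.coeff k) g).trans ?_
  have e : ∀ k : ℤ, |f.coeff k| * (|(k : ℝ)| * N1 g + W1 g) =
      |(k : ℝ)| * |f.coeff k| * N1 g + |f.coeff k| * W1 g := fun k => by ring
  simp only [e]
  rw [sum_add_distrib, ← Finset.sum_mul, ← Finset.sum_mul]
  refine add_le_add ?_ ?_
  · exact mul_le_mul_of_nonneg_right ((summW f).sum_le_tsum _ fun _ _ => by positivity)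
      (N1_nonneg g)
  · exact mul_le_mul_of_nonneg_right ((summ f).sum_le_tsum _ fun _ _ => abs_nonneg _)
      (W1_nonneg g)

lemma W1_T (k : ℤ) : W1 (T k) = |(k : ℝ)| := by
  unfold W1 T
  rw [tsum_eq_single k]
  · simp
  · intro j hj
    rw [AddMonoidAlgebra.coeff_single, Finsupp.single_apply, if_neg hj.symm, abs_zero, mul_zero]

/-- The weighted variation. -/
noncomputable def NU (f : A) : ℝ := W1 ((1 - T 1) * f)

lemma NU_nonneg (f : A) : 0 ≤ NU f := W1_nonneg _

lemma NU_zero : NU 0 = 0 := by unfold NU; rw [mul_zero, W1_zero]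

lemma NU_add_le (f g : A) : NU (f + g) ≤ NU f + NU g := by
  unfold NU
  rw [mul_add]
  exact W1_add_le _ _

lemma NU_neg (f : A) : NU (-f) = NU f := by
  unfold NU
  rw [mul_neg, W1_neg]

lemma NU_sub_le (f g : A) : NU (f - g) ≤ NU f + NU g := by
  rw [sub_eq_add_neg]
  refine (NU_add_le _ _).trans ?_
  rw [NU_neg]

lemma NU_sum_le {ι : Type*} (s : Finset ι) (f : ι → A) : NU (∑ i ∈ s, f i) ≤ ∑ i ∈ s, NU (f i) := by
  unfold NU
  rw [Finset.mul_sum]
  exact W1_sum_le _ _

lemma NU_smul (c : ℝ) (f : A) : NU (c • f) = |c| * NU f := by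
  unfold NU
  rw [mul_smul_comm, W1_smul]

lemma diff_U (r : ℕ) : (1 - T 1) * U r = ((2 * r + 1 : ℝ))⁻¹ • (T (-(r : ℤ)) - T (r + 1)) := by
  unfold U
  rw [mul_smul_comm, Finset.mul_sum]
  congr 1
  have : ∀ i : ℕ, (1 - T 1) * T ((i : ℤ) - r) = T ((i : ℤ) - r) - T (((i + 1 : ℕ) : ℤ) - r) := by
    intro i
    rw [sub_mul, one_mul, T_mul]
    congr 2
    push_cast
    ring
  simp only [this]
  rw [Finset.sum_range_sub' (fun i : ℕ => T ((i : ℤ) - r))]
  congr 2
  · simp
  · push_cast
    ring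

lemma NU_U_le (r : ℕ) : NU (U r) ≤ 1 := by
  unfold NU
  rw [diff_U, W1_smul, abs_of_pos (by positivity)]
  have h : W1 (T (-(r : ℤ)) - T (r + 1)) ≤ 2 * r + 1 := by
    rw [sub_eq_add_neg]
    refine (W1_add_le _ _).trans ?_
    rw [W1_neg, W1_T, W1_T]
    push_cast
    rw [abs_neg, abs_of_nonneg (by positivity : (0:ℝ) ≤ r),
      abs_of_nonneg (by positivity : (0:ℝ) ≤ (r : ℝ) + 1)]
    linarith
  have h0 : (0:ℝ) < 2 * r + 1 := by positivity
  calc (2 * (r:ℝ) + 1)⁻¹ * W1 _ ≤ (2 * (r:ℝ) + 1)⁻¹ * (2 * r + 1) :=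
        mul_le_mul_of_nonneg_left h (by positivity)
    _ = 1 := inv_mul_cancel₀ h0.ne'

/-- Symmetric elements. -/
def Sym (f : A) : Prop := ∀ k, f.coeff (-k) = f.coeff k

/-- The expansion of a symmetric element in uniform measures. -/
lemma Sym.decomp {f : A} (h : Sym f) : ∃ N : ℕ, f = mR (fun k => f.coeff k) N ∧
    ∑ r ∈ range N, |pw (fun k => f.coeff k) r| ≤ NU f := by
  obtain ⟨N, hN⟩ := exists_bound f
  refine ⟨N, ?_, ?_⟩
  · ext k
    rw [coeff_mR]
    have e : f.coeff |k| = f.coeff k := by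
      rcases abs_choice k with h1 | h1
      · rw [h1]
      · rw [h1, h]
    split_ifs with hk
    · rw [hN N le_rfl, sub_zero, e]
    · rw [← e, Int.abs_eq_natAbs]
      apply hN
      rw [Int.abs_eq_natAbs] at hk
      omega
  · have e : ∀ k, ((1 - T 1) * f).coeff k = f.coeff k - f.coeff (k - 1) := by
      intro k
      rw [sub_mul, one_mul, AddMonoidAlgebra.coeff_sub, Finsupp.sub_apply, coeff_T_mul]
    set g : ℤ → ℝ := fun k => |(k : ℝ)| * |f.coeff k - f.coeff (k - 1)| with hg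
    have hs : Summable g := by
      have := summW ((1 - T 1) * f)
      simpa only [e] using this
    have hNU : NU f = ∑' k, g k := by
      unfold NU W1
      simp only [e]
      rfl
    have h1 : ∑ r ∈ range N, |pw (fun k => f.coeff k) r| =
        ∑ k ∈ (range N).image (fun r : ℕ => (r : ℤ) + 1) ∪ (range N).image (fun r : ℕ => -(r : ℤ)),
          g k := by
      rw [sum_union, sum_image, sum_image, ← sum_add_distrib]
      · refine sum_congr rfl fun r _ => ?_
        simp only [hg, pw]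
        have e1 : (r : ℤ) + 1 - 1 = r := by ring
        have e2 : f.coeff (-(r : ℤ) - 1) = f.coeff ((r : ℤ) + 1) := by
          rw [← h]
          congr 1
          ring
        rw [e1, h, e2, abs_mul, abs_of_nonneg (by positivity : (0:ℝ) ≤ 2 * (r : ℝ) + 1)]
        push_cast
        rw [abs_of_nonneg (by positivity : (0:ℝ) ≤ (r : ℝ) + 1), abs_neg,
          abs_of_nonneg (by positivity : (0:ℝ) ≤ (r : ℝ)), abs_sub_comm (f.coeff ((r : ℤ) + 1))]
        ring
      · intro a _ b _ hab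
        have : -(a : ℤ) = -(b : ℤ) := hab
        omega
      · intro a _ b _ hab
        have : (a : ℤ) + 1 = (b : ℤ) + 1 := hab
        omega
      · rw [disjoint_left]
        intro x hx hy
        obtain ⟨a, _, ha⟩ := mem_image.1 hx
        obtain ⟨b, _, hb⟩ := mem_image.1 hy
        omega
    rw [h1, hNU]
    exact hs.sum_le_tsum _ fun _ _ => by positivity

lemma Sym_U (r : ℕ) : Sym (U r) := fun k => by rw [coeff_U, coeff_U, abs_neg]

lemma _root_.Pool.Agent.R248.Ritt.SU.sym {f : A} (h : SU f) : Sym f := h.symm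

lemma Sym.add {f g : A} (hf : Sym f) (hg : Sym g) : Sym (f + g) := fun k => by
  rw [AddMonoidAlgebra.coeff_add, Finsupp.add_apply, Finsupp.add_apply, hf, hg]

lemma Sym.neg {f : A} (hf : Sym f) : Sym (-f) := fun k => by
  rw [AddMonoidAlgebra.coeff_neg, Finsupp.neg_apply, Finsupp.neg_apply, hf]

lemma Sym.sub {f g : A} (hf : Sym f) (hg : Sym g) : Sym (f - g) := by
  rw [sub_eq_add_neg]
  exact hf.add hg.neg

lemma Sym.smul {f : A} (c : ℝ) (hf : Sym f) : Sym (c • f) := fun k => by
  rw [AddMonoidAlgebra.coeff_smul_apply, AddMonoidAlgebra.coeff_smul_apply, hf]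

lemma Sym.sum {ι : Type*} (s : Finset ι) (f : ι → A) (h : ∀ i ∈ s, Sym (f i)) :
    Sym (∑ i ∈ s, f i) := by
  classical
  induction s using Finset.induction_on with
  | empty => intro k; simp
  | insert a s ha ih =>
    rw [sum_insert ha]
    exact (h a (mem_insert_self _ _)).add (ih fun i hi => h i (mem_insert_of_mem hi))

lemma Sym_one : Sym 1 := SU_one.symm

lemma Sym.mul {f g : A} (hf : Sym f) (hg : Sym g) : Sym (f * g) := fun k => by
  rw [coeff_mul, coeff_mul, ← (Equiv.neg ℤ).tsum_eq]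
  congr 1
  ext j
  rw [Equiv.neg_apply, hf, ← hg]
  congr 2
  ring

lemma Sym.pow {f : A} (hf : Sym f) (n : ℕ) : Sym (f ^ n) := by
  induction n with
  | zero => rw [pow_zero]; exact Sym_one
  | succ n ih => rw [pow_succ]; exact ih.mul hf

lemma Sym_prod_U {ι : Type*} (s : Finset ι) (r : ι → ℕ) : Sym (∏ i ∈ s, U (r i)) :=
  (SU_prod s r).symm

/-- The norm of a symmetric unimodal element is at most its mass. -/
lemma _root_.Pool.Agent.R248.Ritt.SU.NU_le {f : A} (h : SU f) : NU f ≤ ∑' k, f.coeff k := by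
  obtain ⟨N, hN, -⟩ := Sym.decomp h.sym
  have hp : ∀ r, 0 ≤ pw (fun k => f.coeff k) r := fun r =>
    mul_nonneg (by positivity) (sub_nonneg.2 (h.anti r (by positivity)))
  have e : ∑' k, f.coeff k = ∑ r ∈ range N, pw (fun k => f.coeff k) r := by
    conv_lhs => rw [hN]
    rw [tsum_mR]
    rfl
  rw [e]
  conv_lhs => rw [hN]
  unfold mR
  refine (NU_sum_le _ _).trans (sum_le_sum fun r _ => ?_)
  rw [NU_smul, abs_of_nonneg (hp r)]
  exact mul_le_of_le_one_right (hp r) (NU_U_le r)

lemma tsum_mul' (f g : A) : ∑' k, (f * g).coeff k = (∑' k, f.coeff k) * ∑' k, g.coeff k := by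
  have h : f * g = ∑ k ∈ f.coeff.support, AddMonoidAlgebra.single k (f.coeff k) * g := by
    conv_lhs => rw [← AddMonoidAlgebra.sum_coeff_single f]
    rw [Finsupp.sum, Finset.sum_mul]
  have h2 : ∀ (k : ℤ) (a : ℝ), ∑' j, (AddMonoidAlgebra.single k a * g).coeff j =
      a * ∑' j, g.coeff j := by
    intro k a
    rw [← (Equiv.addLeft k).tsum_eq, ← tsum_mul_left]
    congr 1
    ext j
    rw [AddMonoidAlgebra.coeff_single_mul_apply]
    simp
  rw [h, tsum_sum']
  simp only [h2]
  rw [← Finset.sum_mul]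
  congr 1
  exact (tsum_eq_sum fun k hk => Finsupp.notMem_support_iff.1 hk).symm

lemma tsum_prod_U {ι : Type*} (s : Finset ι) (r : ι → ℕ) :
    ∑' k, (∏ i ∈ s, U (r i)).coeff k = 1 := by
  classical
  induction s using Finset.induction_on with
  | empty =>
    rw [prod_empty]
    exact tsum_T 0
  | insert a s ha ih => rw [prod_insert ha, tsum_mul', tsum_U, ih, one_mul]

lemma NU_prod_U_le {ι : Type*} (s : Finset ι) (r : ι → ℕ) : NU (∏ i ∈ s, U (r i)) ≤ 1 := by
  rw [← tsum_prod_U s r]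
  exact (SU_prod s r).NU_le

lemma NU_U_mul_U_le (a b : ℕ) : NU (U a * U b) ≤ 1 := by
  have h : U a * U b = ∏ i ∈ (univ : Finset (Fin 2)), U (![a, b] i) := by
    rw [Fin.prod_univ_two]
    rfl
  rw [h]
  exact NU_prod_U_le _ _

/-- `NU` is submultiplicative on symmetric elements. -/
lemma NU_mul_le {f g : A} (hf : Sym f) (hg : Sym g) : NU (f * g) ≤ NU f * NU g := by
  obtain ⟨N, hN, hNs⟩ := hf.decomp
  obtain ⟨M, hM, hMs⟩ := hg.decomp
  set c := pw (fun k => f.coeff k)
  set d := pw (fun k => g.coeff k)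
  have e : f * g = ∑ r ∈ range N, ∑ q ∈ range M, (c r * d q) • (U r * U q) := by
    conv_lhs => rw [hN, hM]
    unfold mR
    rw [Finset.sum_mul_sum]
    refine sum_congr rfl fun r _ => sum_congr rfl fun q _ => ?_
    rw [smul_mul_smul_comm]
  rw [e]
  calc NU _ ≤ ∑ r ∈ range N, ∑ q ∈ range M, |c r| * |d q| := by
        refine (NU_sum_le _ _).trans (sum_le_sum fun r _ => ?_)
        refine (NU_sum_le _ _).trans (sum_le_sum fun q _ => ?_)
        rw [NU_smul, abs_mul]
        exact mul_le_of_le_one_right (by positivity) (NU_U_mul_U_le r q)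
    _ = (∑ r ∈ range N, |c r|) * ∑ q ∈ range M, |d q| := by rw [Finset.sum_mul_sum]
    _ ≤ NU f * NU g := mul_le_mul hNs hMs (sum_nonneg fun _ _ => abs_nonneg _) (NU_nonneg f)

lemma NU_one_le : NU (1 : A) ≤ 1 := by
  have := NU_prod_U_le (∅ : Finset ℕ) id
  simpa using this

lemma NU_pow_le {f : A} (hf : Sym f) (n : ℕ) : NU (f ^ n) ≤ NU f ^ n := by
  induction n with
  | zero => rw [pow_zero, pow_zero]; exact NU_one_le
  | succ n ih =>
    rw [pow_succ, pow_succ]
    refine (NU_mul_le (hf.pow n) hf).trans ?_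
    exact mul_le_mul_of_nonneg_right ih (NU_nonneg f)

/-- The other difference. -/
lemma W1_diff' {f : A} (h : Sym f) : W1 ((1 - T (-1)) * f) = NU f := by
  unfold NU W1
  rw [← (Equiv.neg ℤ).tsum_eq]
  congr 1
  ext k
  have e1 : ((1 - T (-1)) * f).coeff (-k) = f.coeff k - f.coeff (k - 1) := by
    rw [sub_mul, one_mul, AddMonoidAlgebra.coeff_sub, Finsupp.sub_apply, coeff_T_mul, h,
      ← h (k - 1)]
    congr 2
    ring
  have e2 : ((1 - T 1) * f).coeff k = f.coeff k - f.coeff (k - 1) := by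
    rw [sub_mul, one_mul, AddMonoidAlgebra.coeff_sub, Finsupp.sub_apply, coeff_T_mul]
  rw [Equiv.neg_apply, e1, e2]
  push_cast
  rw [abs_neg]

end Pool.Agent.K6.H63.RT
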